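import Mathlib
import Pool.Agent.D0H89.OF.Stm

/-!
# OF, module COMP: the identity component
-/

set_option autoImplicit false
set_option linter.all false

open MeasureTheory Pool.Agent.D0H89.OF

namespace Pool.Agent.D0H21.OF

variable {ι K Γ : Type} [Fintype ι] [DecidableEq ι] [Field K] [Group Γ]

/-- The zero set of a set of polynomials in the entries. -/
def vset (ρ : Γ →* Matrix ι ι K) (I : Set (MvPolynomial (ι × ι) K)) : Set Γ :=
  {γ | ∀ p ∈ I, MvPolynomial.eval (entries ρ γ) p = 0}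

/-- Zariski closed sets. -/
def ZC (ρ : Γ →* Matrix ι ι K) (C : Set Γ) : Prop := ∃ I, C = vset ρ I

theorem ZC.inter {ρ : Γ →* Matrix ι ι K} {C D : Set Γ} (hC : ZC ρ C) (hD : ZC ρ D) :
    ZC ρ (C ∩ D) := by
  obtain ⟨I, rfl⟩ := hC
  obtain ⟨J, rfl⟩ := hD
  refine ⟨I ∪ J, ?_⟩
  ext γ
  simp only [vset, Set.mem_inter_iff, Set.mem_setOf_eq, Set.mem_union]
  constructor
  · rintro ⟨h1, h2⟩ p (hp | hp)
    exacts [h1 p hp, h2 p hp]
  · intro h
    exact ⟨fun p hp => h p (Or.inl hp), fun p hp => h p (Or.inr hp)⟩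

theorem ZC.iInter {ρ : Γ →* Matrix ι ι K} {α : Type} (C : α → Set Γ) (h : ∀ a, ZC ρ (C a)) :
    ZC ρ (⋂ a, C a) := by
  choose I hI using h
  refine ⟨⋃ a, I a, ?_⟩
  ext γ
  simp only [Set.mem_iInter, hI, vset, Set.mem_setOf_eq, Set.mem_iUnion]
  constructor
  · rintro h p ⟨a, ha⟩
    exact h a p ha
  · intro h a p hp
    exact h p ⟨a, hp⟩

theorem eval_bind (ρ : Γ →* Matrix ι ι K) (γ : Γ) (s : ι × ι → MvPolynomial (ι × ι) K)
    (p : MvPolynomial (ι × ι) K) :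
    MvPolynomial.eval (entries ρ γ) (MvPolynomial.bind₁ s p) =
      MvPolynomial.eval (fun i => MvPolynomial.eval (entries ρ γ) (s i)) p :=
  MvPolynomial.eval₂Hom_bind₁ (RingHom.id K) (entries ρ γ) s p

theorem ZC.left {ρ : Γ →* Matrix ι ι K} {C : Set Γ} (hC : ZC ρ C) (g : Γ) :
    ZC ρ {γ | g * γ ∈ C} := by
  obtain ⟨I, rfl⟩ := hC
  let s : ι × ι → MvPolynomial (ι × ι) K :=
    fun ij => ∑ k, MvPolynomial.C (ρ g ij.1 k) * MvPolynomial.X (k, ij.2)
  refine ⟨(MvPolynomial.bind₁ s) '' I, ?_⟩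
  have key : ∀ γ p, MvPolynomial.eval (entries ρ γ) (MvPolynomial.bind₁ s p) =
      MvPolynomial.eval (entries ρ (g * γ)) p := by
    intro γ p
    rw [eval_bind]
    congr 2
    funext ij
    simp only [s, entries, map_sum, map_mul, MvPolynomial.eval_C, MvPolynomial.eval_X,
      Matrix.mul_apply]
  ext γ
  simp only [vset, Set.mem_setOf_eq, Set.forall_mem_image, key]

theorem ZC.right {ρ : Γ →* Matrix ι ι K} {C : Set Γ} (hC : ZC ρ C) (g : Γ) :
    ZC ρ {γ | γ * g ∈ C} := by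
  obtain ⟨I, rfl⟩ := hC
  let s : ι × ι → MvPolynomial (ι × ι) K :=
    fun ij => ∑ k, MvPolynomial.X (ij.1, k) * MvPolynomial.C (ρ g k ij.2)
  refine ⟨(MvPolynomial.bind₁ s) '' I, ?_⟩
  have key : ∀ γ p, MvPolynomial.eval (entries ρ γ) (MvPolynomial.bind₁ s p) =
      MvPolynomial.eval (entries ρ (γ * g)) p := by
    intro γ p
    rw [eval_bind]
    congr 2
    funext ij
    simp only [s, entries, map_sum, map_mul, MvPolynomial.eval_C, MvPolynomial.eval_X,
      Matrix.mul_apply]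
  ext γ
  simp only [vset, Set.mem_setOf_eq, Set.forall_mem_image, key]

theorem ZC.univ (ρ : Γ →* Matrix ι ι K) : ZC ρ Set.univ := ⟨∅, by simp [vset]⟩

theorem ZC.isClosed [TopologicalSpace K] [IsTopologicalRing K] [T2Space K] [TopologicalSpace Γ]
    {ρ : Γ →* Matrix ι ι K} (hρ : Continuous ρ) {C : Set Γ} (hC : ZC ρ C) : IsClosed C := by
  obtain ⟨I, rfl⟩ := hC
  have : vset ρ I = ⋂ p ∈ I, {γ | MvPolynomial.eval (entries ρ γ) p = 0} := by
    ext γ
    simp [vset]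
  rw [this]
  refine isClosed_biInter fun p _ => ?_
  refine isClosed_eq ?_ continuous_const
  have h1 : Continuous fun γ : Γ => (entries ρ γ) := by
    refine continuous_pi fun ij => ?_
    exact hρ.matrix_elem ij.1 ij.2
  exact (MvPolynomial.continuous_eval p).comp h1

/-- The vanishing ideal. -/
noncomputable def vid (ρ : Γ →* Matrix ι ι K) (C : Set Γ) : Ideal (MvPolynomial (ι × ι) K) :=
  ⨅ γ ∈ C, RingHom.ker (MvPolynomial.eval (entries ρ γ))

theorem mem_vid (ρ : Γ →* Matrix ι ι K) (C : Set Γ) (p : MvPolynomial (ι × ι) K) :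
    p ∈ vid ρ C ↔ ∀ γ ∈ C, MvPolynomial.eval (entries ρ γ) p = 0 := by
  simp [vid, Ideal.mem_iInf, RingHom.mem_ker]

theorem ZC.eq_vset {ρ : Γ →* Matrix ι ι K} {C : Set Γ} (hC : ZC ρ C) :
    C = vset ρ (vid ρ C : Set (MvPolynomial (ι × ι) K)) := by
  apply Set.Subset.antisymm
  · intro γ hγ p hp
    exact (mem_vid ρ C p).1 hp γ hγ
  · obtain ⟨I, rfl⟩ := hC
    intro γ hγ p hp
    exact hγ p ((mem_vid ρ _ p).2 fun γ' hγ' => hγ' p hp)

theorem exists_min (ρ : Γ →* Matrix ι ι K) (P : Set Γ → Prop) (h : ∃ C, ZC ρ C ∧ P C) :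
    ∃ Z, ZC ρ Z ∧ P Z ∧ ∀ C, ZC ρ C → P C → C ⊆ Z → C = Z := by
  let s : Set (Ideal (MvPolynomial (ι × ι) K)) := {J | ∃ C, ZC ρ C ∧ P C ∧ vid ρ C = J}
  have hs : s.Nonempty := by
    obtain ⟨C, h1, h2⟩ := h
    exact ⟨vid ρ C, C, h1, h2, rfl⟩
  obtain ⟨J, ⟨Z, hZ, hP, rfl⟩, hmax⟩ := (wellFounded_gt (α := Ideal (MvPolynomial (ι × ι) K))).has_min s hs
  refine ⟨Z, hZ, hP, fun C hC hPC hCZ => ?_⟩
  have hle : vid ρ Z ≤ vid ρ C := by
    intro p hp
    rw [mem_vid] at hp ⊢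
    exact fun γ hγ => hp γ (hCZ hγ)
  have heq : vid ρ Z = vid ρ C := by
    by_contra hne
    exact hmax (vid ρ C) ⟨C, hC, hPC, rfl⟩ (lt_of_le_of_ne hle hne)
  rw [hC.eq_vset, hZ.eq_vset, heq]

theorem measure_pos_of_finiteIndex [MeasurableSpace Γ] [MeasurableMul Γ] (μ : Measure Γ)
    [IsProbabilityMeasure μ] [μ.IsMulLeftInvariant] (H : Subgroup Γ) [H.FiniteIndex] :
    μ (H : Set Γ) ≠ 0 := by
  intro h0
  have hcov : (Set.univ : Set Γ) ⊆ ⋃ q : Γ ⧸ H, (fun x => (q.out)⁻¹ * x) ⁻¹' (H : Set Γ) := by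
    intro x _
    refine Set.mem_iUnion.2 ⟨(QuotientGroup.mk x : Γ ⧸ H), ?_⟩
    have : (QuotientGroup.mk ((QuotientGroup.mk x : Γ ⧸ H).out) : Γ ⧸ H) = QuotientGroup.mk x :=
      Quotient.out_eq _
    exact QuotientGroup.eq.1 this
  haveI : Finite (Γ ⧸ H) := inferInstance
  have h1 : μ (⋃ q : Γ ⧸ H, (fun x => (q.out)⁻¹ * x) ⁻¹' (H : Set Γ)) = 0 := by
    rw [measure_iUnion_null_iff]
    intro q
    rw [measure_preimage_mul, h0]
  have h2 : μ Set.univ = 0 := le_antisymm (h1 ▸ measure_mono hcov) bot_le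
  rw [measure_univ] at h2
  exact one_ne_zero h2

theorem t_COMP : S_COMP := by
  intro ι K Γ _ _ _ _ _ _ _ _ _ _ _ _ _ μ _ _ ρ hρ
  obtain ⟨Z, hZ, hZ0, hmin⟩ := exists_min ρ (fun C => μ C ≠ 0)
    ⟨Set.univ, ZC.univ ρ, by simp⟩
  have hclZ : IsClosed Z := hZ.isClosed hρ
  -- translates of Z
  have hmeas : ∀ (g : Γ) (C : Set Γ), μ {x | g * x ∈ C} = μ C := fun g C =>
    measure_preimage_mul μ g C
  have hZne : Z.Nonempty := by
    by_contra h
    rw [Set.not_nonempty_iff_eq_empty] at h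
    exact hZ0 (by rw [h]; simp)
  -- minimality of left translates
  have hminT : ∀ (g : Γ) (C : Set Γ), ZC ρ C → μ C ≠ 0 → C ⊆ {x | g * x ∈ Z} →
      C = {x | g * x ∈ Z} := by
    intro g C hC hC0 hsub
    have h1 : {x | g⁻¹ * x ∈ C} = Z := by
      refine hmin _ (hC.left g⁻¹) ?_ ?_
      · rw [hmeas]; exact hC0
      · intro x hx
        have := hsub hx
        simpa using this
    ext x
    have h2 : g * x ∈ {x | g⁻¹ * x ∈ C} ↔ g * x ∈ Z := by rw [h1]
    simpa using h2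
  -- the stabilizer
  let H₁ : Subgroup Γ :=
    { carrier := {γ | ∀ z, γ * z ∈ Z ↔ z ∈ Z}
      mul_mem' := by
        intro a b ha hb z
        rw [mul_assoc, ha, hb]
      one_mem' := by intro z; simp
      inv_mem' := by
        intro a ha z
        rw [← ha (a⁻¹ * z), mul_inv_cancel_left] }
  have hH₁mem : ∀ γ, γ ∈ H₁ ↔ ∀ z, γ * z ∈ Z ↔ z ∈ Z := fun γ => Iff.rfl
  have hH₁' : ∀ γ, γ ∈ H₁ ↔ ∀ z ∈ Z, γ * z ∈ Z := by
    intro γ
    constructor
    · intro h z hz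
      exact (h z).2 hz
    · intro h
      have h1 : Z = {x | γ * x ∈ Z} := by
        refine hminT γ Z hZ hZ0 ?_
        intro z hz
        exact h z hz
      intro z
      constructor
      · intro hz
        rw [h1]; exact hz
      · intro hz
        exact h z hz
  -- H₁ is Zariski closed
  have hH₁ZC : ZC ρ (H₁ : Set Γ) := by
    have : (H₁ : Set Γ) = ⋂ z : Z, {γ | γ * (z : Γ) ∈ Z} := by
      ext γ
      simp only [SetLike.mem_coe, hH₁', Set.mem_iInter, Set.mem_setOf_eq, Subtype.forall]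
    rw [this]
    exact ZC.iInter _ fun z => hZ.right z
  -- finite index
  have hfin : H₁.FiniteIndex := by
    let F : Γ ⧸ H₁ → Set Γ := fun q => {x | (q.out)⁻¹ * x ∈ Z}
    have hFd : Pairwise (Function.onFun (AEDisjoint μ) F) := by
      intro q q' hne
      change μ (F q ∩ F q') = 0
      by_contra h0
      apply hne
      have hZC : ZC ρ (F q ∩ F q') := (hZ.left _).inter (hZ.left _)
      have e1 := hminT (q.out)⁻¹ _ hZC h0 Set.inter_subset_left
      have e2 := hminT (q'.out)⁻¹ _ hZC h0 Set.inter_subset_right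
      have e3 : F q = F q' := e1.symm.trans e2
      rw [← Quotient.out_eq q, ← Quotient.out_eq q']
      refine QuotientGroup.eq.2 ?_
      intro z
      have e4 : ∀ x, (q.out)⁻¹ * x ∈ Z ↔ (q'.out)⁻¹ * x ∈ Z := fun x => by
        have : x ∈ F q ↔ x ∈ F q' := by rw [e3]
        exact this
      have := e4 (q'.out * z)
      rw [← mul_assoc, inv_mul_cancel_left] at this
      exact this
    have hFm : ∀ q, NullMeasurableSet (F q) μ := fun q =>
      ((hZ.left _).isClosed hρ).measurableSet.nullMeasurableSet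
    have hfin' : {q | μ Z ≤ μ (F q)}.Finite :=
      Measure.finite_const_le_meas_of_disjoint_iUnion₀ μ (pos_iff_ne_zero.2 hZ0) hFm hFd
        (measure_ne_top μ _)
    have huniv : {q | μ Z ≤ μ (F q)} = Set.univ := by
      ext q
      simp only [Set.mem_setOf_eq, Set.mem_univ, iff_true]
      rw [show μ (F q) = μ Z from hmeas _ _]
    rw [huniv, Set.finite_univ_iff] at hfin'
    exact Subgroup.finiteIndex_of_finite_quotient
  -- the normal core
  let H : Subgroup Γ := H₁.normalCore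
  haveI : H₁.FiniteIndex := hfin
  haveI hHfin : H.FiniteIndex := inferInstance
  have hHmem : ∀ γ, γ ∈ H ↔ ∀ g, g * γ * g⁻¹ ∈ H₁ := fun γ => Iff.rfl
  have hHZC : ZC ρ (H : Set Γ) := by
    have : (H : Set Γ) = ⋂ g : Γ, {γ | g * (γ * g⁻¹) ∈ (H₁ : Set Γ)} := by
      ext γ
      simp only [SetLike.mem_coe, hHmem, Set.mem_iInter, Set.mem_setOf_eq, mul_assoc]
    rw [this]
    refine ZC.iInter _ fun g => ?_
    exact (hH₁ZC.left g).right g⁻¹
  have hHpos : μ (H : Set Γ) ≠ 0 := measure_pos_of_finiteIndex μ H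
  obtain ⟨z, hz⟩ := hZne
  have hHsub : (H : Set Γ) ⊆ {x | z * x ∈ Z} := by
    intro x hx
    have h1 : z * x * z⁻¹ ∈ H₁ := (hHmem x).1 hx z
    have h2 := (hH₁' _).1 h1 z hz
    simpa using h2
  have hHeq : (H : Set Γ) = {x | z * x ∈ Z} := hminT z _ hHZC hHpos hHsub
  refine ⟨H, inferInstance, hHZC.isClosed hρ, hHfin, ?_⟩
  intro I c hI0 γ hγ p hp
  have hD : ZC ρ ({x | c * x ∈ vset ρ I} ∩ (H : Set Γ)) :=
    (ZC.left ⟨I, rfl⟩ c).inter hHZC
  have hD0 : μ ({x | c * x ∈ vset ρ I} ∩ (H : Set Γ)) ≠ 0 := by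
    rw [← hmeas c⁻¹]
    have e : {x | c⁻¹ * x ∈ {x | c * x ∈ vset ρ I} ∩ (H : Set Γ)} =
        {γ | c⁻¹ * γ ∈ H ∧ ∀ p ∈ I, MvPolynomial.eval (entries ρ γ) p = 0} := by
      ext x
      simp only [Set.mem_inter_iff, Set.mem_setOf_eq, mul_inv_cancel_left, SetLike.mem_coe, vset]
      exact and_comm
    rw [e]
    exact hI0
  have hDeq : {x | c * x ∈ vset ρ I} ∩ (H : Set Γ) = {x | z * x ∈ Z} := by
    refine hminT z _ hD hD0 ?_
    rw [← hHeq]
    exact Set.inter_subset_right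
  rw [← hHeq] at hDeq
  have h3 : c⁻¹ * γ ∈ {x | c * x ∈ vset ρ I} ∩ (H : Set Γ) := by
    rw [hDeq]; exact hγ
  have h4 := h3.1
  simp only [Set.mem_setOf_eq, mul_inv_cancel_left] at h4
  exact h4 p hp

end Pool.Agent.D0H21.OF
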