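import Mathlib
import Pool.Agent.D0H89.OF.Stm

/-!
# OF, module LIE: a nilpotent generator with zero trace form of a semisimple representation is zero
-/

set_option autoImplicit false
set_option linter.all false

open Module

namespace Pool.Agent.D0H21.OF

section core

variable {K V : Type} [Field K] [CharZero K] [AddCommGroup V] [Module K V] [FiniteDimensional K V]

attribute [local instance 100] LieRing.ofAssociativeRing

theorem exists_inv {D : Type} [LieRing D] [LieAlgebra K D] [LieRingModule D V] [LieModule K D V]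
    [LieModule.IsNilpotent D V] (W : LieSubmodule K D V) (hW : W ≠ ⊥) :
    ∃ v ∈ W, v ≠ 0 ∧ ∀ x : D, ⁅x, v⁆ = 0 := by
  haveI : LieModule.IsNilpotent D W := by
    let f : D →ₗ⁅K⁆ D := LieHom.id
    let g : W →ₗ[K] V := (W : Submodule K V).subtype
    have hfg : ∀ x m, ⁅f x, g m⁆ = g ⁅x, m⁆ := by
      intro x m; rfl
    exact (Submodule.subtype_injective (W : Submodule K V)).lieModuleIsNilpotent hfg
  haveI : Nontrivial W := (LieSubmodule.nontrivial_iff_ne_bot K D V).2 hW
  obtain ⟨⟨v, hv⟩, hv0⟩ := @exists_ne _ (LieModule.nontrivial_max_triv_of_isNilpotent K D W) 0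
  rw [LieModule.mem_maxTrivSubmodule] at hv
  refine ⟨v, v.2, ?_, ?_⟩
  · intro h
    apply hv0
    ext
    simpa using h
  · intro x
    have := hv x
    exact congrArg Subtype.val this

/-- The abelian / nilpotent argument: if all the operators `A ∈ 𝓛` (a subspace of operators closed
under brackets) are nilpotent, ... they vanish. -/
theorem eq_zero_of_nil {G : Type} [Group G] (ρ : G →* Module.End K V)
    (hsemi : ∀ W : Submodule K V, (∀ x, ∀ w ∈ W, ρ x w ∈ W) →
      ∃ W' : Submodule K V, (∀ x, ∀ w ∈ W', ρ x w ∈ W') ∧ IsCompl W W')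
    {D : Type} [LieRing D] [LieAlgebra K D] [LieRingModule D V] [LieModule K D V]
    [LieModule.IsNilpotent D V]
    (hst : ∀ W : Submodule K V, (∀ x, ∀ w ∈ W, ρ x w ∈ W) → ∀ (d : D), ∀ w ∈ W, ⁅d, w⁆ ∈ W)
    (hconj : ∀ (x : G) (d : D), ∃ d' : D, ∀ v, ⁅d, ρ x v⁆ = ρ x ⁅d', v⁆) :
    ∀ (d : D) (v : V), ⁅d, v⁆ = 0 := by
  let V₁ : Submodule K V :=
    { carrier := {v | ∀ d : D, ⁅d, v⁆ = 0}
      add_mem' := by
        intro a b ha hb d
        rw [lie_add, ha d, hb d, add_zero]
      zero_mem' := by intro d; simp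
      smul_mem' := by
        intro c a ha d
        rw [lie_smul, ha d, smul_zero] }
  have hV₁ : ∀ x, ∀ w ∈ V₁, ρ x w ∈ V₁ := by
    intro x w hw d
    obtain ⟨d', hd'⟩ := hconj x d
    rw [hd', hw d', map_zero]
  obtain ⟨V₂, hV₂, hc⟩ := hsemi V₁ hV₁
  let W₂ : LieSubmodule K D V :=
    { V₂ with lie_mem := fun {d w} hw => hst V₂ hV₂ d w hw }
  have hW₂ : W₂ = ⊥ := by
    by_contra hne
    obtain ⟨v, hv, hv0, hvd⟩ := exists_inv W₂ hne
    have h1 : v ∈ V₁ := hvd
    have h2 : v ∈ V₂ := hv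
    exact hv0 (by
      have := hc.disjoint.le_bot (Submodule.mem_inf.2 ⟨h1, h2⟩)
      simpa using this)
  have h2 : V₂ = ⊥ := by
    rw [eq_bot_iff]
    intro v hv
    have : v ∈ W₂ := hv
    rw [hW₂] at this
    simpa using this
  have h1 : V₁ = ⊤ := by
    have := hc.sup_eq_top
    rwa [h2, sup_bot_eq] at this
  intro d v
  have : v ∈ V₁ := by rw [h1]; trivial
  exact this d

theorem lie_core {G : Type} [Group G] (ρ : G →* Module.End K V)
    (hsemi : ∀ W : Submodule K V, (∀ x, ∀ w ∈ W, ρ x w ∈ W) →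
      ∃ W' : Submodule K V, (∀ x, ∀ w ∈ W', ρ x w ∈ W') ∧ IsCompl W W')
    (N : Module.End K V) (hN : IsNilpotent N)
    (hst : ∀ W : Submodule K V, (∀ x, ∀ w ∈ W, ρ x w ∈ W) → ∀ w ∈ W, N w ∈ W)
    (hbr : ∀ x y, (ρ x * N * ρ x⁻¹) * (ρ y * N * ρ y⁻¹) - (ρ y * N * ρ y⁻¹) * (ρ x * N * ρ x⁻¹) ∈
      Submodule.span K (Set.range fun z => ρ z * N * ρ z⁻¹))
    (htr : ∀ x y, LinearMap.trace K V ((ρ x * N * ρ x⁻¹) * (ρ y * N * ρ y⁻¹)) = 0) : N = 0 := by
  have hinv : ∀ x, ρ x⁻¹ * ρ x = 1 := by
    intro x; rw [← map_mul, inv_mul_cancel, map_one]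
  have hinv' : ∀ x, ρ x * ρ x⁻¹ = 1 := by
    intro x; rw [← map_mul, mul_inv_cancel, map_one]
  set Nx : G → Module.End K V := fun z => ρ z * N * ρ z⁻¹ with hNx
  have hN1 : Nx 1 = N := by simp [hNx]
  set S : Submodule K (Module.End K V) := Submodule.span K (Set.range Nx) with hS
  -- conjugation
  have hcj : ∀ x, ∀ A ∈ S, ρ x⁻¹ * A * ρ x ∈ S := by
    intro x A hA
    induction hA using Submodule.span_induction with
    | mem A hA =>
      obtain ⟨z, rfl⟩ := hA
      apply Submodule.subset_span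
      refine ⟨x⁻¹ * z, ?_⟩
      simp only [hNx, map_mul, mul_inv_rev, inv_inv]
      noncomm_ring
    | zero => simp
    | add A B _ _ hA hB =>
      rw [mul_add, add_mul]; exact S.add_mem hA hB
    | smul c A _ hA =>
      rw [mul_smul_comm, smul_mul_assoc]; exact S.smul_mem c hA
  -- bracket closed
  have hbrS : ∀ A ∈ S, ∀ B ∈ S, A * B - B * A ∈ S := by
    intro A hA B hB
    induction hA, hB using Submodule.span_induction₂ with
    | mem_mem A B hA hB =>
      obtain ⟨x, rfl⟩ := hA
      obtain ⟨y, rfl⟩ := hB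
      exact hbr x y
    | zero_left B _ => simp
    | zero_right A _ => simp
    | add_left A B C _ _ _ h1 h2 =>
      have : (A + B) * C - C * (A + B) = (A * C - C * A) + (B * C - C * B) := by noncomm_ring
      rw [this]; exact S.add_mem h1 h2
    | add_right A B C _ _ _ h1 h2 =>
      have : A * (B + C) - (B + C) * A = (A * B - B * A) + (A * C - C * A) := by noncomm_ring
      rw [this]; exact S.add_mem h1 h2
    | smul_left r A B _ _ h =>
      have : (r • A) * B - B * (r • A) = r • (A * B - B * A) := by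
        rw [smul_mul_assoc, mul_smul_comm, smul_sub]
      rw [this]; exact S.smul_mem r h
    | smul_right r A B _ _ h =>
      have : A * (r • B) - (r • B) * A = r • (A * B - B * A) := by
        rw [smul_mul_assoc, mul_smul_comm, smul_sub]
      rw [this]; exact S.smul_mem r h
  have htrS : ∀ A ∈ S, ∀ B ∈ S, LinearMap.trace K V (A * B) = 0 := by
    intro A hA B hB
    induction hA, hB using Submodule.span_induction₂ with
    | mem_mem A B hA hB =>
      obtain ⟨x, rfl⟩ := hA
      obtain ⟨y, rfl⟩ := hB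
      exact htr x y
    | zero_left B _ => simp
    | zero_right A _ => simp
    | add_left A B C _ _ _ h1 h2 => rw [add_mul, map_add, h1, h2, add_zero]
    | add_right A B C _ _ _ h1 h2 => rw [mul_add, map_add, h1, h2, add_zero]
    | smul_left r A B _ _ h => rw [smul_mul_assoc, map_smul, h, smul_zero]
    | smul_right r A B _ _ h => rw [mul_smul_comm, map_smul, h, smul_zero]
  have hstS : ∀ W : Submodule K V, (∀ x, ∀ w ∈ W, ρ x w ∈ W) → ∀ A ∈ S, ∀ w ∈ W, A w ∈ W := by
    intro W hW A hA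
    induction hA using Submodule.span_induction with
    | mem A hA =>
      obtain ⟨z, rfl⟩ := hA
      intro w hw
      exact hW z _ (hst W hW _ (hW z⁻¹ w hw))
    | zero => intro w _; simp
    | add A B _ _ hA hB => intro w hw; exact W.add_mem (hA w hw) (hB w hw)
    | smul c A _ hA => intro w hw; exact W.smul_mem c (hA w hw)
  let L : LieSubalgebra K (Module.End K V) :=
    { S with lie_mem' := fun {A B} hA hB => hbrS A hA B hB }
  have htf : LieModule.traceForm K L V = 0 := by
    ext A B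
    rw [LieModule.traceForm_apply_apply]
    exact htrS A.1 A.2 B.1 B.2
  haveI hnil : LieModule.IsNilpotent (LieAlgebra.derivedSeries K L 1) V :=
    LieModule.isNilpotent_derivedSeries_of_traceForm_eq_zero htf
  -- step 1: brackets vanish
  have hder : ∀ A B : L, (⁅A, B⁆ : L) ∈ LieAlgebra.derivedSeries K L 1 := by
    intro A B
    rw [LieAlgebra.derivedSeries_def, LieAlgebra.derivedSeriesOfIdeal_succ,
      LieAlgebra.derivedSeriesOfIdeal_zero]
    exact LieSubmodule.lie_mem_lie (LieSubmodule.mem_top _) (LieSubmodule.mem_top _)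
  have hconjD : ∀ (x : G) (d : L), d ∈ LieAlgebra.derivedSeries K L 1 →
      ∃ d' : L, d' ∈ LieAlgebra.derivedSeries K L 1 ∧ (d' : Module.End K V) = ρ x⁻¹ * d * ρ x := by
    intro x d hd
    have hd' : d ∈ Submodule.span K {m : L | ∃ A B : L, ⁅A, B⁆ = m} := by
      rw [LieAlgebra.derivedSeries_def, LieAlgebra.derivedSeriesOfIdeal_succ,
        LieAlgebra.derivedSeriesOfIdeal_zero, ← LieSubmodule.mem_toSubmodule,
        LieSubmodule.lieIdeal_oper_eq_linear_span'] at hd
      simpa using hd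
    clear hd
    induction hd' using Submodule.span_induction with
    | mem d hd =>
      obtain ⟨A, B, rfl⟩ := hd
      refine ⟨⁅(⟨ρ x⁻¹ * A * ρ x, hcj x A A.2⟩ : L), (⟨ρ x⁻¹ * B * ρ x, hcj x B B.2⟩ : L)⁆,
        hder _ _, ?_⟩
      have h1 : (A : Module.End K V) * ρ x * (ρ x⁻¹ * B) = A * B := by
        rw [mul_assoc, ← mul_assoc (ρ x), hinv', one_mul]
      have h2 : (B : Module.End K V) * ρ x * (ρ x⁻¹ * A) = B * A := by
        rw [mul_assoc, ← mul_assoc (ρ x), hinv', one_mul]
      have e1 : (ρ x⁻¹ * (A : Module.End K V) * ρ x) * (ρ x⁻¹ * B * ρ x) =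
          ρ x⁻¹ * (A * ρ x * (ρ x⁻¹ * B)) * ρ x := by noncomm_ring
      have e2 : (ρ x⁻¹ * (B : Module.End K V) * ρ x) * (ρ x⁻¹ * A * ρ x) =
          ρ x⁻¹ * (B * ρ x * (ρ x⁻¹ * A)) * ρ x := by noncomm_ring
      change (ρ x⁻¹ * (A : Module.End K V) * ρ x) * (ρ x⁻¹ * B * ρ x) -
        (ρ x⁻¹ * (B : Module.End K V) * ρ x) * (ρ x⁻¹ * A * ρ x) =
        ρ x⁻¹ * ((A : Module.End K V) * B - B * A) * ρ x
      rw [e1, e2, h1, h2]
      noncomm_ring
    | zero => exact ⟨0, LieSubmodule.zero_mem _, by simp⟩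
    | add A B _ _ hA hB =>
      obtain ⟨a, ha, ha'⟩ := hA
      obtain ⟨b, hb, hb'⟩ := hB
      refine ⟨a + b, add_mem ha hb, ?_⟩
      change (a : Module.End K V) + b = ρ x⁻¹ * ((A : Module.End K V) + B) * ρ x
      rw [ha', hb', mul_add, add_mul]
    | smul c A _ hA =>
      obtain ⟨a, ha, ha'⟩ := hA
      refine ⟨c • a, SMulMemClass.smul_mem c ha, ?_⟩
      change c • (a : Module.End K V) = ρ x⁻¹ * (c • (A : Module.End K V)) * ρ x
      rw [ha', mul_smul_comm, smul_mul_assoc]
  have hz1 : ∀ (d : LieAlgebra.derivedSeries K L 1) (v : V), ⁅d, v⁆ = 0 := by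
    refine eq_zero_of_nil ρ hsemi ?_ ?_
    · intro W hW d w hw
      exact hstS W hW d.1.1 d.1.2 w hw
    · intro x d
      obtain ⟨d', hd', hd''⟩ := hconjD x d.1 d.2
      refine ⟨⟨d', hd'⟩, fun v => ?_⟩
      change (d.1 : Module.End K V) (ρ x v) = ρ x ((d' : Module.End K V) v)
      rw [hd'']
      change _ = (ρ x * (ρ x⁻¹ * (d.1 : Module.End K V) * ρ x)) v
      rw [← mul_assoc, ← mul_assoc, hinv', one_mul]
      rfl
  have hcomm : ∀ A ∈ S, ∀ B ∈ S, Commute A B := by
    intro A hA B hB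
    have h := hz1 ⟨⁅(⟨A, hA⟩ : L), (⟨B, hB⟩ : L)⁆, hder _ _⟩
    rw [commute_iff_eq, ← sub_eq_zero]
    ext v
    exact h v
  have hnilS : ∀ A ∈ S, IsNilpotent A := by
    intro A hA
    have key : ∀ A ∈ S, IsNilpotent A := by
      intro A hA
      induction hA using Submodule.span_induction with
      | mem A hA =>
        obtain ⟨z, rfl⟩ := hA
        obtain ⟨n, hn⟩ := hN
        refine ⟨n, ?_⟩
        have : ∀ k : ℕ, (ρ z * N * ρ z⁻¹) ^ k = ρ z * N ^ k * ρ z⁻¹ := by
          intro k
          induction k with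
          | zero => rw [pow_zero, pow_zero, mul_one, hinv']
          | succ k ih =>
            rw [pow_succ, ih, pow_succ]
            have : ρ z * N ^ k * ρ z⁻¹ * (ρ z * N * ρ z⁻¹) =
              ρ z * N ^ k * (ρ z⁻¹ * ρ z) * N * ρ z⁻¹ := by noncomm_ring
            rw [this, hinv, mul_one]
            noncomm_ring
        change (ρ z * N * ρ z⁻¹) ^ n = 0
        rw [this, hn]; simp
      | zero => exact IsNilpotent.zero
      | add A B hA' hB' hA hB => exact (hcomm A hA' B hB').isNilpotent_add hA hB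
      | smul c A _ hA => exact hA.smul c
    exact key A hA
  haveI hnil2 : LieModule.IsNilpotent L V := by
    rw [LieModule.isNilpotent_iff_forall' (R := K)]
    intro x
    exact hnilS x.1 x.2
  have hz2 : ∀ (d : L) (v : V), ⁅d, v⁆ = 0 := by
    refine eq_zero_of_nil ρ hsemi ?_ ?_
    · intro W hW d w hw
      exact hstS W hW d.1 d.2 w hw
    · intro x d
      refine ⟨⟨ρ x⁻¹ * d * ρ x, hcj x d d.2⟩, fun v => ?_⟩
      change (d : Module.End K V) (ρ x v) = (ρ x * (ρ x⁻¹ * (d : Module.End K V) * ρ x)) v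
      rw [← mul_assoc, ← mul_assoc, hinv', one_mul]
      rfl
  have hNS : N ∈ S := by
    rw [← hN1]
    exact Submodule.subset_span ⟨1, rfl⟩
  ext v
  exact hz2 ⟨N, hNS⟩ v

end core

open Pool.Agent.D0H89.OF in
theorem t_LIE : S_LIE := by
  intro ι K G _ _ _ _ _ _ ρ N hN hadj hbr htr hsemi
  let Φ : Matrix ι ι K ≃ₐ[K] Module.End K (ι → K) := Matrix.toLinAlgEquiv'
  have hΦ : ∀ A v, Φ A v = A.mulVec v := fun A v => Matrix.toLinAlgEquiv'_apply A v
  let ρ' : G →* Module.End K (ι → K) := (Φ : Matrix ι ι K →* Module.End K (ι → K)).comp ρ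
  have hρ' : ∀ x, ρ' x = Φ (ρ x) := fun x => rfl
  have hmain : Φ N = 0 := by
    refine lie_core ρ' ?_ (Φ N) (hN.map Φ) ?_ ?_ ?_
    · intro W hW
      obtain ⟨W', hW', hc⟩ := hsemi W (by
        rintro A ⟨x, rfl⟩ w hw
        have := hW x w hw
        rwa [hρ', hΦ] at this)
      refine ⟨W', ?_, hc⟩
      intro x w hw
      rw [hρ', hΦ]
      exact hW' (ρ x) ⟨x, rfl⟩ w hw
    · intro W hW
      rw [show (∀ w ∈ W, (Φ N) w ∈ W) ↔ (∀ w ∈ W, N.mulVec w ∈ W) from by simp only [hΦ]]
      clear hN hbr htr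
      induction hadj using Algebra.adjoin_induction with
      | mem A hA =>
        obtain ⟨x, rfl⟩ := hA
        intro w hw
        have := hW x w hw
        rwa [hρ', hΦ] at this
      | algebraMap r =>
        intro w hw
        rw [Matrix.algebraMap_eq_diagonal]
        have : (Matrix.diagonal (algebraMap K (ι → K) r)).mulVec w = r • w := by
          ext i
          simp [Matrix.mulVec_diagonal]
        rw [this]
        exact W.smul_mem r hw
      | add A B _ _ hA hB =>
        intro w hw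
        rw [Matrix.add_mulVec]
        exact W.add_mem (hA w hw) (hB w hw)
      | mul A B _ _ hA hB =>
        intro w hw
        rw [← Matrix.mulVec_mulVec]
        exact hA _ (hB w hw)
    · intro x y
      have h := hbr x y
      have h2 := Submodule.mem_map_of_mem (f := (Φ : Matrix ι ι K →ₗ[K] Module.End K (ι → K))) h
      rw [Submodule.map_span, ← Set.range_comp] at h2
      have e : (⇑(Φ : Matrix ι ι K →ₗ[K] Module.End K (ι → K)) ∘ fun z => ρ z * N * ρ z⁻¹) =
          fun z => ρ' z * Φ N * ρ' z⁻¹ := by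
        funext z
        change Φ (ρ z * N * ρ z⁻¹) = _
        rw [map_mul, map_mul]
        rfl
      rw [e] at h2
      convert h2 using 1
      change _ = Φ _
      rw [map_sub]
      simp only [map_mul, hρ']
    · intro x y
      have h := htr x y
      rw [← Matrix.trace_toLin'_eq] at h
      rw [← h]
      congr 1
      change _ = Φ _
      simp only [map_mul, hρ']
  have := congrArg Φ.symm hmain
  simpa using this

end Pool.Agent.D0H21.OF
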